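import Mathlib

namespace Pool.Agent.Results.MP_094caa_co.Counter

open Finset

/-- Number of inversions. -/
def inv {n : ℕ} (σ : Equiv.Perm (Fin n)) : ℕ :=
  #{p : Fin n × Fin n | p.1 < p.2 ∧ σ p.2 < σ p.1}

/-- Number of consecutive occurrences of `π` in `σ`. -/
def occ {k n : ℕ} (π : Equiv.Perm (Fin k)) (σ : Equiv.Perm (Fin n)) : ℕ :=
  #{i : Fin n | ∃ h : i.val + k ≤ n, ∀ a b : Fin k,
    σ ⟨i.val + a.val, by omega⟩ < σ ⟨i.val + b.val, by omega⟩ ↔ π a < π b}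

/-- Expected number of occurrences in a uniform permutation of `Fin n` with `m` inversions. -/
def E {k : ℕ} (n m : ℕ) (π : Equiv.Perm (Fin k)) : ℚ :=
  (∑ σ : Equiv.Perm (Fin n) with inv σ = m, (occ π σ : ℚ)) / #{σ : Equiv.Perm (Fin n) | inv σ = m}

def b (x y : ℕ) : ℕ := bif Nat.blt x y then 1 else 0

theorem b_eq (x y : ℕ) : b x y = if x < y then 1 else 0 := by
  unfold b
  by_cases h : x < y
  · rw [Nat.blt_eq.mpr h, if_pos h]; rfl
  · have : Nat.blt x y = false := by rw [← Bool.not_eq_true, Nat.blt_eq]; exact h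
    rw [this, if_neg h]; rfl

def invL (x0 x1 x2 x3 x4 x5 x6 : ℕ) : ℕ :=
  b x1 x0 + b x2 x0 + b x3 x0 + b x4 x0 + b x5 x0 + b x6 x0 + b x2 x1 +
  b x3 x1 + b x4 x1 + b x5 x1 + b x6 x1 + b x3 x2 + b x4 x2 + b x5 x2 +
  b x6 x2 + b x4 x3 + b x5 x3 + b x6 x3 + b x5 x4 + b x6 x4 + b x6 x5

def pat (x0 x1 x2 x3 x4 : ℕ) : ℕ := b x1 x2 * b x2 x3 * b x3 x4 * b x4 x0

def occL (x0 x1 x2 x3 x4 x5 x6 : ℕ) : ℕ :=
  pat x0 x1 x2 x3 x4 + pat x1 x2 x3 x4 x5 + pat x2 x3 x4 x5 x6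

def p0 : Equiv.Perm (Fin 5) := ⟨![4, 0, 1, 2, 3], ![1, 2, 3, 4, 0], by decide, by decide⟩

theorem inv_eq (σ : Equiv.Perm (Fin 7)) :
    inv σ = invL (σ 0) (σ 1) (σ 2) (σ 3) (σ 4) (σ 5) (σ 6) := by
  simp only [inv, card_filter, Fintype.sum_prod_type, Fin.sum_univ_seven, invL, b_eq, Fin.lt_def]
  simp
  ring

theorem pat_eq (f : Fin 5 → ℕ) :
    (if ∀ a b : Fin 5, f a < f b ↔ p0 a < p0 b then 1 else 0) = pat (f 0) (f 1) (f 2) (f 3) (f 4) := by
  have h : (∀ a b : Fin 5, f a < f b ↔ p0 a < p0 b) ↔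
      (f 1 < f 2 ∧ f 2 < f 3 ∧ f 3 < f 4 ∧ f 4 < f 0) := by
    constructor
    · intro h
      exact ⟨(h 1 2).mpr (by decide), (h 2 3).mpr (by decide), (h 3 4).mpr (by decide),
        (h 4 0).mpr (by decide)⟩
    · rintro ⟨h1, h2, h3, h4⟩ a b
      fin_cases a <;> fin_cases b <;> simp [p0] <;> omega
  simp only [h, pat, b_eq]
  split_ifs <;> simp_all

theorem occ_eq (σ : Equiv.Perm (Fin 7)) :
    occ p0 σ = occL (σ 0) (σ 1) (σ 2) (σ 3) (σ 4) (σ 5) (σ 6) := by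
  have h0 := pat_eq fun a => (σ ⟨0 + a.val, by omega⟩).val
  have h1 := pat_eq fun a => (σ ⟨1 + a.val, by omega⟩).val
  have h2 := pat_eq fun a => (σ ⟨2 + a.val, by omega⟩).val
  unfold occ occL
  rw [card_filter, Fin.sum_univ_seven]
  simp only [Fin.lt_def] at h0 h1 h2 ⊢
  simp at h0 h1 h2 ⊢
  rw [h0, h1, h2]

def onL (F : ℕ → ℕ → ℕ → ℕ → ℕ → ℕ → ℕ → ℕ) : List ℕ → ℕ
  | [x0, x1, x2, x3, x4, x5, x6] => F x0 x1 x2 x3 x4 x5 x6
  | _ => 0

theorem sum_perm (F : ℕ → ℕ → ℕ → ℕ → ℕ → ℕ → ℕ → ℕ) :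
    ∑ σ : Equiv.Perm (Fin 7), F (σ 0) (σ 1) (σ 2) (σ 3) (σ 4) (σ 5) (σ 6) =
      (([0, 1, 2, 3, 4, 5, 6] : List ℕ).permutations'.map (onL F)).sum := by
  have hn : ([0, 1, 2, 3, 4, 5, 6] : List ℕ).permutations'.Nodup :=
    (List.permutations_perm_permutations' _).nodup_iff.mp (List.nodup_permutations _ (by decide))
  rw [← List.sum_toFinset _ hn]
  have hmem : ∀ σ : Equiv.Perm (Fin 7), (List.ofFn fun i => (σ i).val) ∈
      ([0, 1, 2, 3, 4, 5, 6] : List ℕ).permutations'.toFinset := by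
    intro σ
    rw [List.mem_toFinset, List.mem_permutations']
    exact Equiv.Perm.ofFn_comp_perm σ Fin.val
  have hinj : Function.Injective fun σ : Equiv.Perm (Fin 7) => List.ofFn fun i => (σ i).val := by
    intro σ τ h
    ext i
    exact congrFun (List.ofFn_injective h) i
  refine Finset.sum_nbij (fun σ => List.ofFn fun i => (σ i).val) (fun σ _ => hmem σ)
    hinj.injOn ?_ (fun σ _ => rfl)
  apply Finset.surjOn_of_injOn_of_card_le _ (fun σ _ => hmem σ) hinj.injOn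
  rw [List.toFinset_card_of_nodup hn, ← (List.permutations_perm_permutations' _).length_eq,
    List.length_permutations]
  simp [Fintype.card_perm]

def den (m : ℕ) : ℕ := (([0, 1, 2, 3, 4, 5, 6] : List ℕ).permutations'.map
  (onL fun x0 x1 x2 x3 x4 x5 x6 => if invL x0 x1 x2 x3 x4 x5 x6 = m then 1 else 0)).sum

def num (m : ℕ) : ℕ := (([0, 1, 2, 3, 4, 5, 6] : List ℕ).permutations'.map
  (onL fun x0 x1 x2 x3 x4 x5 x6 =>
    if invL x0 x1 x2 x3 x4 x5 x6 = m then occL x0 x1 x2 x3 x4 x5 x6 else 0)).sum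

theorem E_eq (m : ℕ) : E 7 m p0 = (num m : ℚ) / (den m : ℚ) := by
  unfold E num den
  rw [← sum_perm, ← sum_perm, card_filter, sum_filter]
  simp only [inv_eq, occ_eq]
  push_cast
  rfl

theorem result : ∃ π : Equiv.Perm (Fin 5), E 7 8 π < E 7 5 π ∧ E 7 8 π < E 7 9 π := by
  refine ⟨p0, ?_⟩
  have d5 : den 5 = 169 := by decide +kernel
  have d8 : den 8 = 455 := by decide +kernel
  have d9 : den 9 = 531 := by decide +kernel
  have n5 : num 5 = 6 := by decide +kernel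
  have n8 : num 8 = 15 := by decide +kernel
  have n9 : num 9 = 18 := by decide +kernel
  rw [E_eq, E_eq, E_eq, d5, d8, d9, n5, n8, n9]
  norm_num

end Pool.Agent.Results.MP_094caa_co.Counter
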